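import Mathlib
import Pool.Agent.H1.BS.Mn
import Pool.Agent.H1.BS.Di

set_option autoImplicit false

namespace Pool.Agent.Results.MP_85545d_an.AwayFromBoundary

open Set Pool.Agent.H46.BL Pool.Agent.H50.BQ Pool.Agent.H1.BR Pool.Agent.H1.BS

/-- for all `p / q` in `[1/3, 1/2]` in lowest terms, the billiard map has an invariant circle that consists of
periodic points of rotation number `p / q` -/
def CirclesMiddle (T : Table) : Prop :=
  ∀ p q : ℕ, Nat.Coprime p q → 0 < p → q ≤ 3 * p → 2 * p ≤ q → Circle T p q

/-- for all `p / q` in `[1/3, 1/2]` in lowest terms, `dF` and `dH` are linearly independent at some state of unit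
speed along each longest inscribed polygon with `q` vertices that winds `p` times (for `p / q = 1/2`: along each
longest chord) -/
def RegularMiddle (T : Table) (F : ℂ → ℂ → ℝ) : Prop :=
  ∀ p q : ℕ, Nat.Coprime p q → 0 < p → q ≤ 3 * p → 2 * p ≤ q → ∀ x, Longest T p q x →
    ∃ i, ∃ t ∈ Ioo (0 : ℝ) 1, Regular F (stt T (x i) (x (i + 1)) t)

/-- A smooth convex billiard table is a disc if and only if its billiard map has invariant circles of periodic
points for all rational rotation numbers between `1/3` and `1/2`, and if and only if its billiard flow has a smooth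
first integral that is regular along the longest periodic trajectories of these rotation numbers. -/
theorem result (T : Table) : List.TFAE [Disc T, CirclesMiddle T,
    ∃ F, T.Integral F ∧ RegularMiddle T F] := by
  tfae_have 1 → 3 := by
    rintro ⟨o, r, _, hD⟩
    refine ⟨am o, am_integral T hD, fun p q _ hp _ hpq x hx => ⟨0, 1 / 2, ⟨by norm_num, by norm_num⟩, ?_⟩⟩
    have htw := (nde hp (by omega) hx).1 0
    obtain ⟨hxy, hyL⟩ := tw_lt htw
    have hlen := len_pos hxy hyL
    have hlenC : (len T (x 0) (x (0 + 1)) : ℂ) ≠ 0 := by exact_mod_cast hlen.ne'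
    refine am_regular o _ _ ?_
    intro h0
    unfold uc at h0
    rcases div_eq_zero_iff.1 h0 with h1 | h1
    · unfold len at hlen
      rw [h1, norm_zero] at hlen
      exact lt_irrefl _ hlen
    · exact hlenC h1
  tfae_have 3 → 2 := by
    rintro ⟨F, hF, hreg⟩
    have hκ : ∀ s, 0 < deriv T.τ s :=
      (main_circle hF one_pos (by norm_num)
        (hreg 1 3 (by decide) one_pos (by norm_num) (by norm_num))).2
    intro p q hc hp hpq hpq2
    obtain ⟨φ, hφ, hper⟩ := (main_circle hF hp (by omega) (hreg p q hc hp hpq hpq2)).1
    exact circle_of_circ hκ hφ hper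
  tfae_have 2 → 1 := fun h => Pool.Agent.H1.BS.main_rational T h
  tfae_finish

end Pool.Agent.Results.MP_85545d_an.AwayFromBoundary
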