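import Mathlib
import Pool.Agent.H46.BL.Fin
import Pool.Agent.H46.BL.Per
import Pool.Agent.H46.BL.Gln

set_option autoImplicit false

namespace Pool.Agent.Results.MP_85545d_an.NonflatIntegrals

open Pool.Agent.H46.BL Set

/-- positive curvature, the law of the leading derivative at the glancing vectors of length `r`, and a foliated
collar of the phase cylinder with circles of periodic points for all small rational rotation numbers -/
def Conclusion (T : Table) (F : ℂ → ℂ → ℝ) (r : ℝ) : Prop :=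
  (∀ s, 0 < deriv T.τ s) ∧
  (∃ m : ℕ, 2 ≤ m ∧ Even m ∧ (∀ s j, 1 ≤ j → j < m → T.gd F r j s = 0) ∧
    ∃ C : ℝ, C ≠ 0 ∧ ∀ s, T.gd F r m s ^ 3 * deriv T.τ s ^ m = C) ∧
  ∃ g ε, T.Foliated g ε ∧ T.Rational g ∧
    ∀ c ∈ Ioo (0 : ℝ) 1, ∀ s s', T.fn F r s (g c s) = T.fn F r s' (g c s')

/-- Smooth first integrals of billiard flows that are not infinitely flat at a glancing vector. -/
theorem result (T : Table) (F : ℂ → ℂ → ℝ) (hF : T.Integral F) :
    (∀ r : ℝ, 0 < r → (∃ s k, 0 < deriv T.τ s ∧ 1 ≤ k ∧ T.gd F r k s ≠ 0) → Conclusion T F r) ∧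
    (∀ r s : ℝ, 0 < r → LinearIndependent ℝ
        ![fderivWithin ℝ (fun z : ℂ × ℂ => F z.1 z.2) T.phase (T.γ s, (r : ℂ) * ex (T.τ s)),
          fderiv ℝ energy (T.γ s, (r : ℂ) * ex (T.τ s))] → Conclusion T F r) ∧
    ((∀ s r : ℝ, 0 < r → AnalyticOnNhd ℝ (fun a : ℝ => F (T.γ s) ((r : ℂ) * ex a)) univ) →
      (¬ ∃ h : ℝ → ℝ, ∀ q ∈ T.Y, ∀ p : ℂ, p ≠ 0 → F q p = h ‖p‖) →
      ∃ r : ℝ, 0 < r ∧ Conclusion T F r) := by
  have key : ∀ r : ℝ, 0 < r → (∃ s k, 0 < deriv T.τ s ∧ 1 ≤ k ∧ T.gd F r k s ≠ 0) →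
      Conclusion T F r := by
    intro r hr hnf
    obtain ⟨h1, h2, ⟨g, ε, h3, h4⟩, -⟩ := main_nonflat T hF hr hnf
    exact ⟨h1, h2, g, ε, h3, rational_of_foliated T h1 h3, h4⟩
  refine ⟨key, fun r s hr hli => ?_, fun han hnc => ?_⟩
  · obtain ⟨h1, h2⟩ := glancing_indep T hF hr (fun s s' => T.fn_zero_const hF hr s s') hli
    exact key r hr ⟨s, 2, h1, by norm_num, h2⟩
  · by_contra hcon
    apply hnc
    refine analytic_flat T hF han (fun r hr s s' => T.fn_zero_const hF hr s s') ?_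
    intro r hr s hs k hk
    by_contra hne
    exact hcon ⟨r, hr, key r hr ⟨s, k, hs, hk, hne⟩⟩

end Pool.Agent.Results.MP_85545d_an.NonflatIntegrals
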