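import Mathlib
import Pool.Agent.H50.BQ.Fin2
import Pool.Agent.H1.BR.Elr
import Pool.Agent.H1.BR.Two

set_option autoImplicit false

namespace Pool.Agent.Results.MP_85545d_an.RegularIntegrals

open Set Pool.Agent.H46.BL Pool.Agent.H50.BQ Pool.Agent.H1.BR

/-- the chord from `γ x` to `γ y` is orthogonal to the boundary at both of its ends, so that the trajectories
along it are periodic of period two -/
def DoubleNormal (T : Table) (x y : ℝ) : Prop :=
  ((T.γ y - T.γ x) * ex (-(T.τ x))).re = 0 ∧ ((T.γ y - T.γ x) * ex (-(T.τ y))).re = 0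

/-- `dF` and `dH` are linearly independent at every state of unit speed inside the table that is not on a double
normal -/
def RegularOff (T : Table) (F : ℂ → ℂ → ℝ) : Prop :=
  ∀ x y, Tw T x y → ¬ DoubleNormal T x y → ∀ t ∈ Ioo (0 : ℝ) 1, Regular F (stt T x y t)

/-- for all `p / q` in `(0, 1/3]` in lowest terms, `dF` and `dH` are linearly independent at some state of unit
speed along each longest inscribed polygon with `q` vertices that winds `p` times -/
def RegularLongest (T : Table) (F : ℂ → ℂ → ℝ) : Prop :=
  ∀ p q : ℕ, Nat.Coprime p q → 0 < p → 3 * p ≤ q → ∀ x, Longest T p q x →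
    ∃ i, ∃ t ∈ Ioo (0 : ℝ) 1, Regular F (stt T (x i) (x (i + 1)) t)

/-- A smooth convex billiard table is an ellipse if and only if its billiard flow has a smooth first integral that
is regular off the two-periodic trajectories, and if and only if it has one that is regular along the longest
periodic trajectories of rotation number at most `1/3`. -/
theorem result (T : Table) : List.TFAE [Ellipse T,
    ∃ F, T.Integral F ∧ RegularOff T F,
    ∃ F, T.Integral F ∧ RegularLongest T F] := by
  have hdn : ∀ x y, DoubleNormal T x y ∨ ¬ (l1 T x y = 0 ∧ l2 T x y = 0) := by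
    intro x y
    by_contra hc
    push Not at hc
    obtain ⟨h1, h2, h3⟩ := hc
    apply h1
    have e : ∀ z w : ℝ, w ≠ 0 → z / w = 0 → z = 0 := by
      intro z w hw h
      rcases div_eq_zero_iff.1 h with h | h
      · exact h
      · exact absurd h hw
    by_cases hl : len T x y = 0
    · have h0 : T.γ y - T.γ x = 0 := by
        unfold len at hl
        exact norm_eq_zero.1 hl
      unfold DoubleNormal
      rw [h0]
      simp
    · constructor
      · have := e _ _ hl h2
        linarith
      · exact e _ _ hl h3
  tfae_have 1 → 2 := by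
    rintro ⟨o, a, b, φ, ha, hb, hE⟩
    refine ⟨Fe o a b φ, fe_integral T ha hb hE, fun x y h hn t ht => ?_⟩
    refine fe_regular T ha hb hE h ?_ ht
    rcases hdn x y with h1 | h1
    · exact absurd h1 hn
    · exact h1
  tfae_have 2 → 3 := by
    rintro ⟨F, hF, hreg⟩
    refine ⟨F, hF, fun p q hc hp hpq x hx => ⟨0, 1 / 2, ⟨by norm_num, by norm_num⟩, ?_⟩⟩
    refine hreg _ _ ((nde hp (by omega) hx).1 0) ?_ _ ⟨by norm_num, by norm_num⟩
    intro hd
    apply no_double hp hpq hx 0
    obtain ⟨h1, h2⟩ := hd
    unfold l1 l2
    rw [h1, h2]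
    simp
  tfae_have 3 → 1 := by
    rintro ⟨F, hF, hreg⟩
    exact main_regular T hF hreg
  tfae_finish

end Pool.Agent.Results.MP_85545d_an.RegularIntegrals
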