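import Mathlib
import Pool.Agent.H50.BQ.Fin

/-
MP_85545d : rigidity of billiard tables with invariant circles of periodic points.  Proof by helper1 and helper50.
-/

set_option autoImplicit false

namespace Pool.Agent.Results.MP_85545d_an.RotationalCircles

open Set Pool.Agent.H46.BL Pool.Agent.H50.BQ

/-- If for every rational number `p / q` in `(0, 1/3]` (in lowest terms) the billiard map of a smooth convex table
has an invariant circle that consists of periodic points of rotation number `p / q`, then the boundary of the table is
an ellipse. -/
theorem result (T : Table)
    (h : ∀ p q : ℕ, Nat.Coprime p q → 0 < p → 3 * p ≤ q → Circle T p q) : Ellipse T :=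
  main_rational T h

end Pool.Agent.Results.MP_85545d_an.RotationalCircles
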